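import Mathlib

/-! Abstract Hilbert space part. -/

open Filter Topology
open scoped InnerProductSpace

namespace Pool.Agent.P.MP_f617a8_an

variable {E : Type*} [NormedAddCommGroup E] [InnerProductSpace ℂ E] [CompleteSpace E]
  {ι κ : Type*}

theorem abstract_main (s c : ι → E) (hs : Orthonormal ℂ s) (hc : Orthonormal ℂ c)
    (hs' : ∀ f : E, (∀ n, ⟪s n, f⟫_ℂ = 0) → f = 0)
    (e : E) (he0 : e ≠ 0) (he : ∀ n, ⟪e, c n⟫_ℂ = 0)
    (hc' : ∀ f : E, (∀ n, ⟪c n, f⟫_ℂ = 0) → ⟪e, f⟫_ℂ = 0 → f = 0)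
    (k : κ → E) (m : κ → ℂ) (hk0 : ∀ ξ, k ξ ≠ 0)
    (hk : ∀ ξ n, ⟪k ξ, c n⟫_ℂ = m ξ * ⟪k ξ, s n⟫_ℂ)
    (hm : ∀ ξ, ⟪k ξ, e⟫_ℂ = 0 → m ξ = 0)
    (hk' : ∀ f : E, (∀ ξ, ⟪k ξ, f⟫_ℂ = 0) → f = 0) :
    ∃ P : E →L[ℂ] E,
      (∀ f : E, HasSum (fun n => ⟪s n, f⟫_ℂ • c n) (P f)) ∧
      (∀ f : E, ‖P f‖ = ‖f‖) ∧
      (∀ f : E, (∀ n : ℕ, ∃ g, (P ^ n) g = f) → f = 0) ∧
      (Submodule.span ℂ (Set.range fun n : ℕ => (P ^ n) e)).topologicalClosure = ⊤ := by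
  have hsp : (Submodule.span ℂ (Set.range s))ᗮ = ⊥ := by
    rw [Submodule.eq_bot_iff]
    intro f hf
    refine hs' f fun n => ?_
    exact (Submodule.mem_orthogonal _ _).1 hf _ (Submodule.subset_span ⟨n, rfl⟩)
  set b : HilbertBasis ι ℂ E := HilbertBasis.mkOfOrthogonalEqBot hs hsp with hb
  have hbs : ∀ n, b n = s n := fun n => by rw [hb, HilbertBasis.coe_mkOfOrthogonalEqBot]
  set V := hc.orthogonalFamily.linearIsometry with hV
  set Q : E →ₗᵢ[ℂ] E := V.comp b.repr.toLinearIsometry with hQ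
  set P : E →L[ℂ] E := Q.toContinuousLinearMap with hP
  have hPQ : ∀ f, P f = Q f := fun f => rfl
  have hsum : ∀ f : E, HasSum (fun n => ⟪s n, f⟫_ℂ • c n) (P f) := by
    intro f
    have := hc.orthogonalFamily.hasSum_linearIsometry (b.repr f)
    simp only [LinearIsometry.toSpanSingleton_apply, HilbertBasis.repr_apply_apply, hbs] at this
    exact this
  have hnorm : ∀ f : E, ‖P f‖ = ‖f‖ := fun f => Q.norm_map f
  have hinner : ∀ f g : E, ⟪P f, P g⟫_ℂ = ⟪f, g⟫_ℂ := fun f g => Q.inner_map_map f g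
  have hnormn : ∀ (n : ℕ) (f : E), ‖(P ^ n) f‖ = ‖f‖ := by
    intro n
    induction n with
    | zero => simp
    | succ n ih => intro f; rw [pow_succ', mul_apply_eq_comp, hnorm, ih]
  -- inner products against `P f`
  have hPin : ∀ x f : E, HasSum (fun n => ⟪s n, f⟫_ℂ * ⟪x, c n⟫_ℂ) ⟪x, P f⟫_ℂ := by
    intro x f
    have := (hsum f).mapL (innerSL ℂ x)
    simpa only [innerSL_apply_apply, inner_smul_right] using this
  have heP : ∀ f : E, ⟪e, P f⟫_ℂ = 0 := by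
    intro f
    have := hPin e f
    simp only [he, mul_zero] at this
    exact this.unique hasSum_zero
  have hkP : ∀ ξ (f : E), ⟪k ξ, P f⟫_ℂ = m ξ * ⟪k ξ, f⟫_ℂ := by
    intro ξ f
    have h1 := hPin (k ξ) f
    have h2 := (b.hasSum_inner_mul_inner (k ξ) f).mul_left (m ξ)
    refine h1.unique (h2.congr_fun fun n => ?_)
    rw [hk, hbs]; ring
  -- the range of `P` is the orthogonal complement of `e`
  have hrange : ∀ g : E, ⟪e, g⟫_ℂ = 0 → ∃ f, P f = g := by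
    intro g hg
    have hPs : ∀ n, P (s n) = c n := by
      intro n
      classical
      have h1 := hsum (s n)
      have h2 : HasSum (fun j => ⟪s j, s n⟫_ℂ • c j) (c n) := by
        have := hasSum_single (f := fun j => ⟪s j, s n⟫_ℂ • c j) n (fun j hj => by
          simp [hs.2 hj])
        simpa [inner_self_eq_norm_sq_to_K, hs.1 n] using this
      exact h1.unique h2
    let R : Submodule ℂ E := LinearMap.range Q.toLinearMap
    have hRc : IsComplete (R : Set E) := Q.isometry.isUniformInducing.isComplete_range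
    have : CompleteSpace R := hRc.completeSpace_coe
    obtain ⟨y, hy, z, hz, hyz⟩ := R.exists_add_mem_mem_orthogonal g
    obtain ⟨f, rfl⟩ := hy
    have hz0 : z = 0 := by
      refine hc' z (fun n => ?_) ?_
      · rw [← hPs]
        exact (Submodule.mem_orthogonal _ _).1 hz _ ⟨s n, rfl⟩
      · have h3 : ⟪e, g⟫_ℂ = ⟪e, P f⟫_ℂ + ⟪e, z⟫_ℂ := by rw [hyz, inner_add_right]; rfl
        rw [hg, heP, zero_add] at h3
        exact h3.symm
    exact ⟨f, by rw [hyz, hz0, add_zero]; rfl⟩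
  have hm1 : ∀ ξ, ‖m ξ‖ < 1 := by
    intro ξ
    by_contra hcon
    push Not at hcon
    have hee : ⟪e, e⟫_ℂ ≠ 0 := by simpa using he0
    set a : ℂ := ⟪e, k ξ⟫_ℂ / ⟪e, e⟫_ℂ with ha
    set k' : E := k ξ - a • e with hk'def
    have h1 : ⟪e, k'⟫_ℂ = 0 := by
      rw [hk'def, inner_sub_right, inner_smul_right, ha, div_mul_cancel₀ _ hee, sub_self]
    have h2 : k ξ = k' + a • e := by rw [hk'def]; abel
    have h3 : ‖k ξ‖ * ‖k ξ‖ = ‖k'‖ * ‖k'‖ + ‖a • e‖ * ‖a • e‖ := by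
      rw [h2]
      refine norm_add_sq_eq_norm_sq_add_norm_sq_of_inner_eq_zero (𝕜 := ℂ) _ _ ?_
      rw [inner_smul_right, ← inner_conj_symm, h1]; simp
    have h4 : ⟪k ξ, P (k ξ)⟫_ℂ = ⟪k', P (k ξ)⟫_ℂ := by
      rw [hk'def, inner_sub_left, inner_smul_left, heP]; simp
    have h5 : ‖m ξ‖ * (‖k ξ‖ * ‖k ξ‖) ≤ ‖k'‖ * ‖k ξ‖ := by
      have := norm_inner_le_norm (𝕜 := ℂ) k' (P (k ξ))
      rw [← h4, hkP, hnorm, norm_mul, inner_self_eq_norm_sq_to_K] at this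
      simpa [sq] using this
    have h6 : 0 < ‖k ξ‖ := norm_pos_iff.2 (hk0 ξ)
    have h7 : ‖k ξ‖ ≤ ‖k'‖ := by
      have : ‖k ξ‖ * ‖k ξ‖ ≤ ‖k'‖ * ‖k ξ‖ := by nlinarith [mul_pos h6 h6]
      exact le_of_mul_le_mul_right this h6
    have h8 : ‖a • e‖ * ‖a • e‖ ≤ 0 := by nlinarith
    have h9 : a • e = 0 := by
      rw [← norm_eq_zero]; nlinarith [norm_nonneg (a • e)]
    have h10 : ⟪k ξ, e⟫_ℂ = 0 := by
      rw [h2, h9, add_zero, ← inner_conj_symm, h1]; simp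
    rw [hm ξ h10] at hcon
    norm_num at hcon
  have hcnu : ∀ f : E, (∀ n : ℕ, ∃ g, (P ^ n) g = f) → f = 0 := by
    intro f hf
    refine hk' f fun ξ => ?_
    have h1 : ∀ (n : ℕ) (g : E), ⟪k ξ, (P ^ n) g⟫_ℂ = m ξ ^ n * ⟪k ξ, g⟫_ℂ := by
      intro n
      induction n with
      | zero => simp
      | succ n ih => intro g; rw [pow_succ', mul_apply_eq_comp, hkP, ih]; ring
    have h2 : ∀ n : ℕ, ‖⟪k ξ, f⟫_ℂ‖ ≤ ‖m ξ‖ ^ n * (‖k ξ‖ * ‖f‖) := by
      intro n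
      obtain ⟨g, rfl⟩ := hf n
      rw [h1, norm_mul, norm_pow, hnormn]
      gcongr
      exact norm_inner_le_norm _ _
    have h3 : Tendsto (fun n : ℕ => ‖m ξ‖ ^ n * (‖k ξ‖ * ‖f‖)) atTop (𝓝 0) := by
      simpa using (tendsto_pow_atTop_nhds_zero_of_lt_one (norm_nonneg _) (hm1 ξ)).mul_const
        (‖k ξ‖ * ‖f‖)
    exact norm_le_zero_iff.1 (ge_of_tendsto' h3 h2)
  refine ⟨P, hsum, hnorm, hcnu, ?_⟩
  rw [Submodule.topologicalClosure_eq_top_iff, Submodule.eq_bot_iff]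
  intro f hf
  have hf' : ∀ j : ℕ, ⟪(P ^ j) e, f⟫_ℂ = 0 := fun j =>
    (Submodule.mem_orthogonal _ _).1 hf _ (Submodule.subset_span ⟨j, rfl⟩)
  refine hcnu f fun n => ?_
  have : ∃ g, (P ^ n) g = f ∧ ∀ j : ℕ, ⟪(P ^ j) e, g⟫_ℂ = 0 := by
    induction n with
    | zero => exact ⟨f, by simp, hf'⟩
    | succ n ih =>
      obtain ⟨g, hg1, hg2⟩ := ih
      obtain ⟨g', rfl⟩ := hrange g (by simpa using hg2 0)
      refine ⟨g', by rw [pow_succ, mul_apply_eq_comp, hg1], fun j => ?_⟩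
      have := hg2 (j + 1)
      rwa [pow_succ', mul_apply_eq_comp, hinner] at this
  obtain ⟨g, hg, -⟩ := this
  exact ⟨g, hg⟩

end Pool.Agent.P.MP_f617a8_an
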