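import Pool.Agent.P.MP_f617a8_an.Unique

/-! The eigenfunctions `exp (i ξ log tan (t/2))` of the adjoint. -/

open MeasureTheory Complex Set Filter Topology
open scoped Real ENNReal

namespace Pool.Agent.P.MP_f617a8_an

noncomputable def uu (t : ℝ) : ℝ := Real.log (Real.tan (t / 2))

noncomputable def vv (x : ℝ) : ℝ := 2 * Real.arctan (Real.exp x)

noncomputable def kk (ξ : ℝ) (t : ℝ) : ℂ := exp (ξ * uu t * I)

theorem measurable_uu : Measurable uu := by
  unfold uu
  simp_rw [Real.tan_eq_sin_div_cos]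
  fun_prop

theorem measurable_vv : Measurable vv := by
  unfold vv
  exact (Real.continuous_arctan.comp Real.continuous_exp).measurable.const_mul 2

theorem vv_uu {t : ℝ} (ht : t ∈ Ioo 0 π) : vv (uu t) = t := by
  unfold vv uu
  have h1 : 0 < Real.tan (t / 2) :=
    Real.tan_pos_of_pos_of_lt_pi_div_two (by linarith [ht.1]) (by linarith [ht.2])
  rw [Real.exp_log h1, Real.arctan_tan (by linarith [ht.1, Real.pi_pos]) (by linarith [ht.2])]
  ring

theorem measurable_kk (ξ : ℝ) : Measurable (kk ξ) := by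
  have := measurable_uu
  unfold kk
  fun_prop

theorem norm_kk (ξ t : ℝ) : ‖kk ξ t‖ = 1 := by
  unfold kk
  rw [← ofReal_mul, norm_exp_ofReal_mul_I]

theorem kk_unique (f : ℝ → ℂ) (hf : Integrable f (volume.restrict (Ioo 0 π)))
    (h : ∀ ξ : ℝ, ∫ t in Ioo 0 π, f t * kk ξ t = 0) :
    f =ᵐ[volume.restrict (Ioo 0 π)] 0 := by
  refine complex_unique _ uu vv measurable_uu measurable_vv ?_ f hf h
  filter_upwards [ae_restrict_mem measurableSet_Ioo] with t ht
  exact vv_uu ht

theorem hasDerivAt_uu {t : ℝ} (ht : t ∈ Ioo 0 π) : HasDerivAt uu (1 / Real.sin t) t := by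
  have h1 : 0 < Real.tan (t / 2) :=
    Real.tan_pos_of_pos_of_lt_pi_div_two (by linarith [ht.1]) (by linarith [ht.2])
  have h2 : 0 < Real.cos (t / 2) :=
    Real.cos_pos_of_mem_Ioo ⟨by linarith [ht.1, Real.pi_pos], by linarith [ht.2]⟩
  have h3 : 0 < Real.sin (t / 2) :=
    Real.sin_pos_of_pos_of_lt_pi (by linarith [ht.1]) (by linarith [ht.2, Real.pi_pos])
  have h4 : HasDerivAt (fun x : ℝ => x / 2) (1 / 2) t := (hasDerivAt_id t).div_const 2
  have h7 : HasDerivAt (fun x : ℝ => Real.tan (x / 2)) (1 / Real.cos (t / 2) ^ 2 * (1 / 2)) t :=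
    HasDerivAt.comp (h₂ := Real.tan) (h := fun x : ℝ => x / 2) t (Real.hasDerivAt_tan h2.ne') h4
  have h5 := h7.log h1.ne'
  have h6 : Real.sin t = 2 * Real.sin (t / 2) * Real.cos (t / 2) := by
    rw [← Real.sin_two_mul]; congr 1; ring
  have h8 : 1 / Real.sin t = 1 / Real.cos (t / 2) ^ 2 * (1 / 2) / Real.tan (t / 2) := by
    rw [h6, Real.tan_eq_sin_div_cos]
    field_simp
  rw [h8]
  exact h5

theorem hasDerivAt_kk (ξ : ℝ) {t : ℝ} (ht : t ∈ Ioo 0 π) :
    HasDerivAt (kk ξ) (kk ξ t * (ξ * (1 / Real.sin t : ℝ) * I)) t := by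
  unfold kk
  exact (((hasDerivAt_uu ht).ofReal_comp.const_mul (ξ : ℂ)).mul_const I).cexp

theorem integrable_kk_mul (ξ : ℝ) (g : ℝ → ℝ) (hg : Continuous g) :
    Integrable (fun t => kk ξ t * (g t : ℝ)) (volume.restrict (Ioo 0 π)) := by
  have h1 : Integrable (fun t => ((g t : ℝ) : ℂ)) (volume.restrict (Ioo 0 π)) :=
    ((continuous_ofReal.comp hg).integrableOn_Icc (a := 0) (b := π)).mono_set Ioo_subset_Icc_self
  refine Integrable.bdd_mul (c := 1) h1 (measurable_kk ξ).aestronglyMeasurable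
    (Eventually.of_forall fun t => (norm_kk ξ t).le)

/-- Integration by parts. -/
theorem ibp (ξ : ℝ) (g g' : ℝ → ℝ) (hg : ∀ t, HasDerivAt g (g' t) t) (hg' : Continuous g') :
    (ξ * I) * (∫ t in Ioo 0 π, kk ξ t * (g t : ℝ))
      + ∫ t in Ioo 0 π, kk ξ t * ((Real.cos t * g t + Real.sin t * g' t : ℝ) : ℂ) = 0 := by
  have hgc : Continuous g := continuous_iff_continuousAt.2 fun t => (hg t).continuousAt
  have hd : ∀ t ∈ Ioo 0 π, HasDerivAt (fun t => kk ξ t * ((Real.sin t * g t : ℝ) : ℂ))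
      ((ξ * I) * (kk ξ t * (g t : ℝ))
        + kk ξ t * ((Real.cos t * g t + Real.sin t * g' t : ℝ) : ℂ)) t := by
    intro t ht
    have h1 := (hasDerivAt_kk ξ ht).fun_mul ((Real.hasDerivAt_sin t).fun_mul (hg t)).ofReal_comp
    refine h1.congr_deriv ?_
    have : ((Real.sin t : ℝ) : ℂ) ≠ 0 := by
      exact_mod_cast (Real.sin_pos_of_pos_of_lt_pi ht.1 ht.2).ne'
    simp only [ofReal_mul, ofReal_div, ofReal_one, ofReal_add]
    field_simp
  have hi1 := integrable_kk_mul ξ g hgc
  have hi2 := integrable_kk_mul ξ (fun t => Real.cos t * g t + Real.sin t * g' t) (by fun_prop)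
  have hint : IntervalIntegrable (fun t => (ξ * I) * (kk ξ t * (g t : ℝ))
        + kk ξ t * ((Real.cos t * g t + Real.sin t * g' t : ℝ) : ℂ)) volume 0 π := by
    rw [intervalIntegrable_iff_integrableOn_Ioo_of_le Real.pi_pos.le]
    exact (hi1.const_mul _).add hi2
  have hlim : ∀ a : ℝ, Real.sin a = 0 →
      Tendsto (fun t => kk ξ t * ((Real.sin t * g t : ℝ) : ℂ)) (𝓝 a) (𝓝 0) := by
    intro a ha
    rw [tendsto_zero_iff_norm_tendsto_zero]
    have : Continuous fun t => ‖((Real.sin t * g t : ℝ) : ℂ)‖ := by fun_prop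
    have h2 := this.tendsto a
    simp only [ha, zero_mul, ofReal_zero, norm_zero] at h2
    refine h2.congr fun t => ?_
    rw [norm_mul (kk ξ t), norm_kk, one_mul]
  have := intervalIntegral.integral_eq_sub_of_hasDerivAt_of_tendsto Real.pi_pos hd hint
    ((hlim 0 Real.sin_zero).mono_left nhdsWithin_le_nhds)
    ((hlim π Real.sin_pi).mono_left nhdsWithin_le_nhds)
  rw [intervalIntegral.integral_of_le Real.pi_pos.le, integral_Ioc_eq_integral_Ioo,
    integral_add (hi1.const_mul _) hi2, integral_const_mul, sub_zero] at this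
  exact this

noncomputable def CC (ξ n : ℝ) : ℂ := ∫ t in Ioo 0 π, kk ξ t * (Real.cos (n * t) : ℝ)

noncomputable def SS (ξ n : ℝ) : ℂ := ∫ t in Ioo 0 π, kk ξ t * (Real.sin (n * t) : ℝ)

theorem CC_rec (ξ n : ℝ) :
    (ξ * I) * CC ξ n + ((1 + n) / 2) * CC ξ (n + 1) + ((1 - n) / 2) * CC ξ (n - 1) = 0 := by
  have h := ibp ξ (fun t => Real.cos (n * t)) (fun t => -Real.sin (n * t) * n)
    (fun t => by simpa using ((hasDerivAt_id t).const_mul n).cos) (by fun_prop)
  rw [← h, add_assoc]
  unfold CC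
  congr 1
  rw [← integral_const_mul, ← integral_const_mul, ← integral_add
    ((integrable_kk_mul ξ _ (by fun_prop)).const_mul _)
    ((integrable_kk_mul ξ _ (by fun_prop)).const_mul _)]
  refine integral_congr_ae (Eventually.of_forall fun t => ?_)
  simp only [add_mul, sub_mul, one_mul, Real.cos_add, Real.cos_sub]
  push_cast; ring

theorem SS_rec (ξ n : ℝ) :
    (ξ * I) * SS ξ n + ((1 + n) / 2) * SS ξ (n + 1) + ((1 - n) / 2) * SS ξ (n - 1) = 0 := by
  have h := ibp ξ (fun t => Real.sin (n * t)) (fun t => Real.cos (n * t) * n)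
    (fun t => by simpa using ((hasDerivAt_id t).const_mul n).sin) (by fun_prop)
  rw [← h, add_assoc]
  unfold SS
  congr 1
  rw [← integral_const_mul, ← integral_const_mul, ← integral_add
    ((integrable_kk_mul ξ _ (by fun_prop)).const_mul _)
    ((integrable_kk_mul ξ _ (by fun_prop)).const_mul _)]
  refine integral_congr_ae (Eventually.of_forall fun t => ?_)
  simp only [add_mul, sub_mul, one_mul, Real.sin_add, Real.sin_sub]
  push_cast; ring

/-- A solution of the recurrence vanishing at `1` vanishes at every positive integer. -/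
theorem rec_zero (a : ℂ) (X : ℝ → ℂ)
    (h : ∀ n : ℝ, a * X n + ((1 + n) / 2) * X (n + 1) + ((1 - n) / 2) * X (n - 1) = 0)
    (h1 : X 1 = 0) : ∀ n : ℕ, X (n + 1) = 0 := by
  have key : ∀ n : ℕ, X (n + 1) = 0 ∧ X (n + 1 + 1) = 0 := by
    intro n
    induction n with
    | zero =>
      have := h 1
      simp only [h1, mul_zero, ofReal_one, sub_self, zero_div, zero_mul, zero_add, add_zero] at this
      constructor
      · simpa using h1
      · norm_num at this ⊢
        exact this
    | succ n ih =>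
      have := h (n + 1 + 1)
      rw [add_sub_cancel_right, ih.1, ih.2] at this
      simp only [mul_zero, zero_add, add_zero, mul_eq_zero] at this
      constructor
      · push_cast; exact ih.2
      · push_cast
        rcases this with h2 | h2
        · exfalso
          have h3 : ((1 + ((n : ℝ) + 1 + 1)) / 2 : ℝ) = 0 := by exact_mod_cast h2
          have : (0 : ℝ) ≤ n := n.cast_nonneg
          linarith
        · exact h2
  exact fun n => (key n).1

theorem SS_one_ne_zero (ξ : ℝ) : SS ξ 1 ≠ 0 := by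
  intro h0
  have h1 := rec_zero _ _ (SS_rec ξ) h0
  have h2 := sin_unique (kk ξ) (by simpa using integrable_kk_mul ξ (fun _ => 1) continuous_const)
    fun n => by
      cases n with
      | zero => simp
      | succ n => have := h1 n; unfold SS at this; push_cast at this ⊢; exact this
  have h3 : ∀ᵐ t ∂(volume.restrict (Ioo (0:ℝ) π)), False := by
    filter_upwards [h2] with t ht
    have := norm_kk ξ t
    rw [ht] at this
    simp at this
  rw [eventually_false_iff_eq_bot, ae_eq_bot, Measure.restrict_eq_zero] at h3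
  simp only [Real.volume_Ioo, sub_zero, ENNReal.ofReal_eq_zero] at h3
  linarith [Real.pi_pos]

theorem CC_eq (ξ : ℝ) (n : ℕ) : CC ξ (n + 1) = (CC ξ 1 / SS ξ 1) * SS ξ (n + 1) := by
  have := rec_zero (ξ * I) (fun n => CC ξ n - (CC ξ 1 / SS ξ 1) * SS ξ n) (fun n => by
    linear_combination CC_rec ξ n - (CC ξ 1 / SS ξ 1) * SS_rec ξ n)
    (by rw [div_mul_cancel₀ _ (SS_one_ne_zero ξ), sub_self]) n
  exact sub_eq_zero.1 this

theorem CC_one_of_zero (ξ : ℝ) (h : CC ξ 0 = 0) : CC ξ 1 = 0 := by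
  have h1 := CC_rec ξ 0
  have h2 : CC ξ (0 - 1) = CC ξ 1 := by unfold CC; simp
  rw [h, h2, zero_add] at h1
  simp only [ofReal_zero] at h1
  linear_combination h1

end Pool.Agent.P.MP_f617a8_an
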