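import Pool.Agent.P.MP_f617a8_an.Eigen
import Pool.Agent.P.MP_f617a8_an.Abstract

/-! Concrete glue in `L²(0,π)`. -/

open MeasureTheory Complex Set Filter Topology
open scoped Real ENNReal InnerProductSpace

namespace Pool.Agent.P.MP_f617a8_an

theorem inner_eq {μ : Measure ℝ} (f g : Lp ℂ 2 μ) (F G : ℝ → ℂ) (hf : f =ᵐ[μ] F) (hg : g =ᵐ[μ] G) :
    ⟪f, g⟫_ℂ = ∫ t, (starRingEnd ℂ) (F t) * G t ∂μ := by
  rw [L2.inner_def]
  refine integral_congr_ae ?_
  filter_upwards [hf, hg] with t h1 h2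
  rw [h1, h2, RCLike.inner_apply']

theorem int_cos (n : ℤ) : ∫ t in Ioo 0 π, Real.cos (n * t) = if n = 0 then π else 0 := by
  rw [← integral_Ioc_eq_integral_Ioo, ← intervalIntegral.integral_of_le Real.pi_pos.le]
  split_ifs with h
  · simp [h]
  · have h' : (n : ℝ) ≠ 0 := by exact_mod_cast h
    rw [intervalIntegral.integral_comp_mul_left (f := Real.cos) h']
    simp [Real.sin_int_mul_pi]

theorem intg (g : ℝ → ℝ) (hg : Continuous g) : Integrable g (volume.restrict (Ioo 0 π)) :=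
  (hg.integrableOn_Icc (a := 0) (b := π)).mono_set Ioo_subset_Icc_self

theorem int_sin_sin (n m : ℕ+) : ∫ t in Ioo 0 π,
    (√(2 / π) * Real.sin (n * t)) * (√(2 / π) * Real.sin (m * t)) = if n = m then 1 else 0 := by
  have h1 : ∀ t : ℝ, (√(2 / π) * Real.sin (n * t)) * (√(2 / π) * Real.sin (m * t))
      = (1 / π) * (Real.cos ((((n : ℕ) : ℤ) - (m : ℕ) : ℤ) * t)
        - Real.cos ((((n : ℕ) : ℤ) + (m : ℕ) : ℤ) * t)) := by
    intro t
    have h2 : √(2 / π) * √(2 / π) = 2 / π := Real.mul_self_sqrt (by positivity)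
    push_cast
    rw [sub_mul, add_mul, Real.cos_add, Real.cos_sub]
    linear_combination (Real.sin (n * t) * Real.sin (m * t)) * h2
  simp_rw [h1]
  rw [integral_const_mul, integral_sub (intg _ (by fun_prop)) (intg _ (by fun_prop)),
    int_cos, int_cos]
  have h3 : ¬ (((n : ℕ) : ℤ) + (m : ℕ) = 0) := by
    have := n.pos; have := m.pos; omega
  rw [if_neg h3]
  by_cases h : n = m
  · subst h; simp [Real.pi_pos.ne']
  · have h4 : ¬ (((n : ℕ) : ℤ) - (m : ℕ) = 0) := by
      intro h5; apply h; apply PNat.eq; omega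
    simp [h, h4]

theorem int_cos_cos (n m : ℕ+) : ∫ t in Ioo 0 π,
    (√(2 / π) * Real.cos (n * t)) * (√(2 / π) * Real.cos (m * t)) = if n = m then 1 else 0 := by
  have h1 : ∀ t : ℝ, (√(2 / π) * Real.cos (n * t)) * (√(2 / π) * Real.cos (m * t))
      = (1 / π) * (Real.cos ((((n : ℕ) : ℤ) - (m : ℕ) : ℤ) * t)
        + Real.cos ((((n : ℕ) : ℤ) + (m : ℕ) : ℤ) * t)) := by
    intro t
    have h2 : √(2 / π) * √(2 / π) = 2 / π := Real.mul_self_sqrt (by positivity)
    push_cast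
    rw [sub_mul, add_mul, Real.cos_add, Real.cos_sub]
    linear_combination (Real.cos (n * t) * Real.cos (m * t)) * h2
  simp_rw [h1]
  rw [integral_const_mul, integral_add (intg _ (by fun_prop)) (intg _ (by fun_prop)),
    int_cos, int_cos]
  have h3 : ¬ (((n : ℕ) : ℤ) + (m : ℕ) = 0) := by
    have := n.pos; have := m.pos; omega
  rw [if_neg h3]
  by_cases h : n = m
  · subst h; simp [Real.pi_pos.ne']
  · have h4 : ¬ (((n : ℕ) : ℤ) - (m : ℕ) = 0) := by
      intro h5; apply h; apply PNat.eq; omega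
    simp [h, h4]

theorem memLp_of_bound (F : ℝ → ℂ) (hF : Measurable F) (C : ℝ) (h : ∀ t, ‖F t‖ ≤ C) :
    MemLp F 2 (volume.restrict (Ioo 0 π)) :=
  MemLp.of_bound hF.aestronglyMeasurable C (Eventually.of_forall h)

theorem main (s c : ℕ+ → Lp ℂ 2 (volume.restrict (Ioo (0 : ℝ) π)))
    (e : Lp ℂ 2 (volume.restrict (Ioo (0 : ℝ) π)))
    (hs : ∀ n : ℕ+, s n =ᵐ[volume.restrict (Ioo 0 π)]
      fun t => ((√(2 / π) * Real.sin (n * t) : ℝ) : ℂ))
    (hc : ∀ n : ℕ+, c n =ᵐ[volume.restrict (Ioo 0 π)]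
      fun t => ((√(2 / π) * Real.cos (n * t) : ℝ) : ℂ))
    (he : e =ᵐ[volume.restrict (Ioo 0 π)] fun _ => (1 : ℂ)) :
    ∃ P : Lp ℂ 2 (volume.restrict (Ioo (0 : ℝ) π)) →L[ℂ] Lp ℂ 2 (volume.restrict (Ioo (0 : ℝ) π)),
      (∀ f, HasSum (fun n => ⟪s n, f⟫_ℂ • c n) (P f)) ∧
      (∀ f, ‖P f‖ = ‖f‖) ∧
      (∀ f, (∀ n : ℕ, ∃ g, (P ^ n) g = f) → f = 0) ∧
      (Submodule.span ℂ (Set.range fun n : ℕ => (P ^ n) e)).topologicalClosure = ⊤ := by
  let μ : Measure ℝ := volume.restrict (Ioo (0 : ℝ) π)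
  have hμ : μ = volume.restrict (Ioo (0 : ℝ) π) := rfl
  have hsq : ((√(2 / π) : ℝ) : ℂ) ≠ 0 := by
    have : 0 < √(2 / π) := Real.sqrt_pos.2 (by positivity)
    exact_mod_cast this.ne'
  have hint : ∀ f : Lp ℂ 2 μ, Integrable f μ := fun f => (Lp.memLp f).integrable (by norm_num)
  have hμ0 : ¬ ∀ᵐ t ∂μ, False := by
    intro h3
    rw [eventually_false_iff_eq_bot, ae_eq_bot, hμ, Measure.restrict_eq_zero] at h3
    simp only [Real.volume_Ioo, sub_zero, ENNReal.ofReal_eq_zero] at h3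
    linarith [Real.pi_pos]
  let k : ℝ → Lp ℂ 2 μ := fun ξ => (memLp_of_bound (fun t => (starRingEnd ℂ) (kk ξ t))
    (continuous_conj.measurable.comp (measurable_kk ξ)) 1 (fun t => by simp [norm_kk])).toLp _
  have hk : ∀ ξ, k ξ =ᵐ[μ] fun t => (starRingEnd ℂ) (kk ξ t) := fun ξ => MemLp.coeFn_toLp _
  refine abstract_main s c ?_ ?_ ?_ e ?_ ?_ ?_ k (fun ξ => CC ξ 1 / SS ξ 1) ?_ ?_ ?_ ?_
  · classical
    rw [orthonormal_iff_ite]
    intro n m
    rw [inner_eq _ _ _ _ (hs n) (hs m)]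
    simp only [conj_ofReal, ← ofReal_mul]
    rw [integral_complex_ofReal, int_sin_sin]
    split_ifs <;> simp
  · classical
    rw [orthonormal_iff_ite]
    intro n m
    rw [inner_eq _ _ _ _ (hc n) (hc m)]
    simp only [conj_ofReal, ← ofReal_mul]
    rw [integral_complex_ofReal, int_cos_cos]
    split_ifs <;> simp
  · intro f hf
    rw [Lp.eq_zero_iff_ae_eq_zero]
    refine sin_unique f (hint f) fun n => ?_
    rcases Nat.eq_zero_or_pos n with rfl | hn
    · simp
    · obtain ⟨p, rfl⟩ : ∃ p : ℕ+, (p : ℕ) = n := ⟨⟨n, hn⟩, rfl⟩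
      have := hf p
      rw [inner_eq _ _ _ _ (hs p) (EventuallyEq.refl _ _)] at this
      simp only [conj_ofReal, ofReal_mul, map_mul, mul_assoc] at this
      rw [integral_const_mul, mul_eq_zero] at this
      simpa only [mul_comm] using this.resolve_left hsq
  · intro h0
    apply hμ0
    have h1 : (e : ℝ → ℂ) =ᵐ[μ] 0 := by rw [h0]; exact Lp.coeFn_zero _ _ _
    filter_upwards [he, h1] with t h2 h3
    rw [h3] at h2
    simp at h2
  · intro n
    rw [inner_eq _ _ _ _ he (hc n)]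
    simp only [map_one, one_mul]
    rw [integral_complex_ofReal, integral_const_mul]
    have := int_cos ((n : ℕ) : ℤ)
    rw [if_neg (by have := n.pos; omega)] at this
    push_cast at this
    rw [this]; simp
  · intro f hf hf0
    rw [Lp.eq_zero_iff_ae_eq_zero]
    refine cos_unique f (hint f) fun n => ?_
    rcases Nat.eq_zero_or_pos n with rfl | hn
    · rw [inner_eq _ _ _ _ he (EventuallyEq.refl _ _)] at hf0
      simpa using hf0
    · obtain ⟨p, rfl⟩ : ∃ p : ℕ+, (p : ℕ) = n := ⟨⟨n, hn⟩, rfl⟩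
      have := hf p
      rw [inner_eq _ _ _ _ (hc p) (EventuallyEq.refl _ _)] at this
      simp only [conj_ofReal, ofReal_mul, map_mul, mul_assoc] at this
      rw [integral_const_mul, mul_eq_zero] at this
      simpa only [mul_comm] using this.resolve_left hsq
  · intro ξ h0
    apply hμ0
    have h1 : (k ξ : ℝ → ℂ) =ᵐ[μ] 0 := by rw [h0]; exact Lp.coeFn_zero _ _ _
    filter_upwards [hk ξ, h1] with t h2 h3
    rw [h3] at h2
    have := congrArg norm h2
    simp [norm_kk] at this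
  · intro ξ n
    rw [inner_eq _ _ _ _ (hk ξ) (hc n), inner_eq _ _ _ _ (hk ξ) (hs n)]
    have h1 := CC_eq ξ n.natPred
    have h2 : ((n.natPred : ℕ) : ℝ) + 1 = ((n : ℕ) : ℝ) := by
      exact_mod_cast n.natPred_add_one
    rw [h2] at h1
    have h3 : ∫ t, (starRingEnd ℂ) ((starRingEnd ℂ) (kk ξ t)) *
        ((√(2 / π) * Real.cos (n * t) : ℝ) : ℂ) ∂μ = (√(2 / π) : ℝ) * CC ξ n := by
      unfold CC
      rw [← integral_const_mul]
      refine integral_congr_ae (Eventually.of_forall fun t => ?_)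
      simp only [conj_conj, ofReal_mul]; ring
    have h4 : ∫ t, (starRingEnd ℂ) ((starRingEnd ℂ) (kk ξ t)) *
        ((√(2 / π) * Real.sin (n * t) : ℝ) : ℂ) ∂μ = (√(2 / π) : ℝ) * SS ξ n := by
      unfold SS
      rw [← integral_const_mul]
      refine integral_congr_ae (Eventually.of_forall fun t => ?_)
      simp only [conj_conj, ofReal_mul]; ring
    rw [h3, h4, h1]; ring
  · intro ξ h0
    rw [inner_eq _ _ _ _ (hk ξ) he] at h0
    have : CC ξ 0 = 0 := by unfold CC; simpa using h0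
    simp only [CC_one_of_zero ξ this, zero_div]
  · intro f hf
    rw [Lp.eq_zero_iff_ae_eq_zero]
    refine kk_unique f (hint f) fun ξ => ?_
    have := hf ξ
    rw [inner_eq _ _ _ _ (hk ξ) (EventuallyEq.refl _ _)] at this
    simpa only [conj_conj, mul_comm] using this

end Pool.Agent.P.MP_f617a8_an
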