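import Mathlib

/-! Uniqueness lemmas: an integrable function orthogonal to all `exp (i ξ u)` vanishes. -/

open MeasureTheory Complex Set Filter Topology
open scoped Real ENNReal

namespace Pool.Agent.P.MP_f617a8_an

theorem charFun_map_withDensity (μ : Measure ℝ) (u : ℝ → ℝ) (hu : Measurable u)
    (g : ℝ → ℝ) (hg : Integrable g μ) (ξ : ℝ) :
    charFun ((μ.withDensity (fun t => ENNReal.ofReal (g t))).map u) ξ
      = ∫ t, ((max (g t) 0 : ℝ) : ℂ) * exp (ξ * u t * I) ∂μ := by
  rw [charFun_apply_real, integral_map hu.aemeasurable (by fun_prop)]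
  rw [integral_withDensity_eq_integral_toReal_smul₀
    (hg.aemeasurable.ennreal_ofReal) (by simp)]
  refine integral_congr_ae (Eventually.of_forall fun t => ?_)
  simp [ENNReal.toReal_ofReal']

theorem real_unique (μ : Measure ℝ) [SigmaFinite μ] (u v : ℝ → ℝ) (hu : Measurable u)
    (hv : Measurable v) (huv : ∀ᵐ t ∂μ, v (u t) = t)
    (g : ℝ → ℝ) (hg : Integrable g μ)
    (h : ∀ ξ : ℝ, ∫ t, (g t : ℂ) * exp (ξ * u t * I) ∂μ = 0) : g =ᵐ[μ] 0 := by
  set ν₁ := μ.withDensity (fun t => ENNReal.ofReal (g t)) with hν₁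
  set ν₂ := μ.withDensity (fun t => ENNReal.ofReal (-g t)) with hν₂
  have : IsFiniteMeasure ν₁ := isFiniteMeasure_withDensity_ofReal hg.2
  have : IsFiniteMeasure ν₂ := isFiniteMeasure_withDensity_ofReal hg.neg.2
  have hb : ∀ ξ : ℝ, ∀ w : ℝ → ℝ, Integrable w μ →
      Integrable (fun t => (w t : ℂ) * exp (ξ * u t * I)) μ := by
    intro ξ w hw
    refine Integrable.mul_bdd (c := 1) hw.ofReal (by fun_prop) (Eventually.of_forall fun t => ?_)
    rw [← ofReal_mul, norm_exp_ofReal_mul_I]
  have h1 : ν₁.map u = ν₂.map u := by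
    apply Measure.ext_of_charFun
    funext ξ
    rw [hν₁, hν₂, charFun_map_withDensity μ u hu g hg ξ,
      charFun_map_withDensity μ u hu (fun t => -g t) hg.neg ξ, ← sub_eq_zero,
      ← integral_sub (hb ξ _ hg.pos_part) (hb ξ _ hg.neg_part), ← h ξ]
    refine integral_congr_ae (Eventually.of_forall fun t => ?_)
    simp only
    rw [← sub_mul, ← ofReal_sub, max_zero_sub_max_neg_zero_eq_self]
  have h2 : ∀ ν : Measure ℝ, ν ≪ μ → (ν.map u).map v = ν := by
    intro ν hν
    rw [Measure.map_map hv hu]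
    have : (v ∘ u) =ᵐ[ν] id := hν.ae_le huv
    rw [Measure.map_congr this, Measure.map_id]
  have h3 : ν₁ = ν₂ := by
    rw [← h2 ν₁ (withDensity_absolutelyContinuous _ _), h1,
      h2 ν₂ (withDensity_absolutelyContinuous _ _)]
  have h4 := (withDensity_eq_iff_of_sigmaFinite hg.aemeasurable.ennreal_ofReal
    hg.neg.aemeasurable.ennreal_ofReal).1 h3
  filter_upwards [h4] with t ht
  simp only [Pi.zero_apply]
  rcases le_total (g t) 0 with h5 | h5
  · rw [ENNReal.ofReal_of_nonpos h5] at ht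
    have := ENNReal.ofReal_eq_zero.1 ht.symm
    simp only [Pi.neg_apply] at this
    linarith
  · rw [Pi.neg_apply, ENNReal.ofReal_of_nonpos (neg_nonpos.2 h5)] at ht
    have := ENNReal.ofReal_eq_zero.1 ht
    linarith

theorem complex_unique (μ : Measure ℝ) [SigmaFinite μ] (u v : ℝ → ℝ) (hu : Measurable u)
    (hv : Measurable v) (huv : ∀ᵐ t ∂μ, v (u t) = t)
    (f : ℝ → ℂ) (hf : Integrable f μ)
    (h : ∀ ξ : ℝ, ∫ t, f t * exp (ξ * u t * I) ∂μ = 0) : f =ᵐ[μ] 0 := by
  have hb : ∀ ξ : ℝ, ∀ w : ℝ → ℂ, Integrable w μ →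
      Integrable (fun t => w t * exp (ξ * u t * I)) μ := by
    intro ξ w hw
    refine Integrable.mul_bdd (c := 1) hw (by fun_prop) (Eventually.of_forall fun t => ?_)
    rw [← ofReal_mul, norm_exp_ofReal_mul_I]
  have hf' : Integrable (fun t => (starRingEnd ℂ) (f t)) μ :=
    (Complex.conjLIE.toLinearIsometry.toContinuousLinearMap.integrable_comp hf)
  have h' : ∀ ξ : ℝ, ∫ t, (starRingEnd ℂ) (f t) * exp (ξ * u t * I) ∂μ = 0 := by
    intro ξ
    have := congrArg (starRingEnd ℂ) (h (-ξ))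
    rw [← integral_conj, map_zero] at this
    rw [← this]
    refine integral_congr_ae (Eventually.of_forall fun t => ?_)
    simp [← exp_conj]
  have hre : (fun t => (f t).re) =ᵐ[μ] 0 := by
    refine real_unique μ u v hu hv huv _ hf.re fun ξ => ?_
    have : ∀ t, (((f t).re : ℝ) : ℂ) * exp (ξ * u t * I)
        = (1/2 : ℂ) * (f t * exp (ξ * u t * I) + (starRingEnd ℂ) (f t) * exp (ξ * u t * I)) := by
      intro t; rw [← add_mul, add_conj]; push_cast; ring
    simp_rw [this]
    rw [integral_const_mul, integral_add (hb ξ _ hf) (hb ξ _ hf'), h, h']; simp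
  have him : (fun t => (f t).im) =ᵐ[μ] 0 := by
    refine real_unique μ u v hu hv huv _ hf.im fun ξ => ?_
    have : ∀ t, (((f t).im : ℝ) : ℂ) * exp (ξ * u t * I)
        = (-I/2 : ℂ) * (f t * exp (ξ * u t * I) - (starRingEnd ℂ) (f t) * exp (ξ * u t * I)) := by
      intro t; rw [← sub_mul, sub_conj]; push_cast
      linear_combination (((f t).im : ℂ) * exp (ξ * u t * I)) * I_mul_I
    simp_rw [this]
    rw [integral_const_mul, integral_sub (hb ξ _ hf) (hb ξ _ hf'), h, h']; simp
  filter_upwards [hre, him] with t h1 h2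
  exact Complex.ext h1 h2

/-- Completeness of the cosines in `L¹(0,π)`. -/
theorem cos_unique (f : ℝ → ℂ) (hf : Integrable f (volume.restrict (Ioo 0 π)))
    (h : ∀ n : ℕ, ∫ t in Ioo 0 π, f t * (Real.cos (n * t) : ℝ) = 0) :
    f =ᵐ[volume.restrict (Ioo 0 π)] 0 := by
  set μ : Measure ℝ := volume.restrict (Ioo 0 π) with hμ
  have hb : ∀ (k : ℕ) (n : ℝ), Integrable (fun t => f t * ((Real.cos t ^ k * Real.cos (n * t) : ℝ) : ℂ)) μ := by
    intro k n
    refine Integrable.mul_bdd (c := 1) hf (by fun_prop) (Eventually.of_forall fun t => ?_)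
    rw [norm_real, Real.norm_eq_abs, abs_mul, abs_pow]
    exact mul_le_one₀ (pow_le_one₀ (abs_nonneg _) (Real.abs_cos_le_one _)) (abs_nonneg _)
      (Real.abs_cos_le_one _)
  have h1 : ∀ (k : ℕ) (n : ℤ), ∫ t, f t * ((Real.cos t ^ k * Real.cos (n * t) : ℝ) : ℂ) ∂μ = 0 := by
    intro k
    induction k with
    | zero =>
      intro n
      obtain ⟨m, rfl | rfl⟩ := Int.eq_nat_or_neg n
      · simpa using h m
      · simpa using h m
    | succ k ih =>
      intro n
      have : ∀ t, f t * ((Real.cos t ^ (k+1) * Real.cos (n * t) : ℝ) : ℂ)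
          = (1/2 : ℂ) * (f t * ((Real.cos t ^ k * Real.cos (((n+1 : ℤ) : ℝ) * t) : ℝ) : ℂ)
            + f t * ((Real.cos t ^ k * Real.cos (((n-1 : ℤ) : ℝ) * t) : ℝ) : ℂ)) := by
        intro t
        have e1 : ((n+1 : ℤ) : ℝ) * t = n * t + t := by push_cast; ring
        have e2 : ((n-1 : ℤ) : ℝ) * t = n * t - t := by push_cast; ring
        rw [e1, e2, Real.cos_add, Real.cos_sub]
        push_cast; ring
      simp_rw [this]
      rw [integral_const_mul, integral_add (hb _ _) (hb _ _), ih, ih]; simp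
  refine complex_unique μ Real.cos Real.arccos Real.measurable_cos Real.measurable_arccos ?_ f hf
    fun ξ => ?_
  · rw [hμ]
    filter_upwards [ae_restrict_mem measurableSet_Ioo] with t ht
    exact Real.arccos_cos ht.1.le ht.2.le
  · have hs : ∀ t, HasSum (fun k : ℕ => f t * ((ξ * Real.cos t * I) ^ k / k.factorial))
        (f t * exp (ξ * Real.cos t * I)) := by
      intro t
      refine HasSum.mul_left _ ?_
      rw [Complex.exp_eq_exp_ℂ]
      exact NormedSpace.expSeries_div_hasSum_exp _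
    have he : ∀ (k : ℕ) t, f t * ((ξ * Real.cos t * I) ^ k / k.factorial)
        = ((ξ * I) ^ k / k.factorial) *
          (f t * ((Real.cos t ^ k * Real.cos (((0 : ℤ) : ℝ) * t) : ℝ) : ℂ)) := by
      intro k t
      simp only [Int.cast_zero, zero_mul, Real.cos_zero, mul_one]
      push_cast; ring
    have hint : ∀ k : ℕ, Integrable (fun t => f t * ((ξ * Real.cos t * I) ^ k / k.factorial)) μ := by
      intro k
      simp_rw [he]
      exact (hb _ _).const_mul _
    have hsum : Summable fun k : ℕ => ∫ t, ‖f t * ((ξ * Real.cos t * I) ^ k / k.factorial)‖ ∂μ := by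
      refine Summable.of_nonneg_of_le (fun k => integral_nonneg fun t => norm_nonneg _)
        (fun k => ?_) ((Real.summable_pow_div_factorial |ξ|).mul_left (∫ t, ‖f t‖ ∂μ))
      rw [← integral_mul_const]
      refine integral_mono (hint k).norm (hf.norm.mul_const _) fun t => ?_
      simp only [norm_mul, norm_div, norm_pow, norm_real, norm_I, mul_one, Real.norm_eq_abs,
        RCLike.norm_natCast]
      gcongr
      exact mul_le_of_le_one_right (abs_nonneg _) (Real.abs_cos_le_one _)
    have := hasSum_integral_of_summable_integral_norm hint hsum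
    simp_rw [(hs _).tsum_eq] at this
    have h0 : (fun k : ℕ => ∫ t, f t * ((ξ * Real.cos t * I) ^ k / k.factorial) ∂μ) = fun _ => 0 := by
      funext k
      simp_rw [he]
      rw [integral_const_mul, h1, mul_zero]
    rw [h0] at this
    exact this.unique hasSum_zero

/-- Completeness of the sines in `L¹(0,π)`. -/
theorem sin_unique (f : ℝ → ℂ) (hf : Integrable f (volume.restrict (Ioo 0 π)))
    (h : ∀ n : ℕ, ∫ t in Ioo 0 π, f t * (Real.sin (n * t) : ℝ) = 0) :
    f =ᵐ[volume.restrict (Ioo 0 π)] 0 := by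
  set μ : Measure ℝ := volume.restrict (Ioo 0 π) with hμ
  have hb : ∀ (n : ℝ), Integrable (fun t => f t * ((Real.sin (n * t) : ℝ) : ℂ)) μ := by
    intro n
    refine Integrable.mul_bdd (c := 1) hf (by fun_prop) (Eventually.of_forall fun t => ?_)
    rw [norm_real, Real.norm_eq_abs]
    exact Real.abs_sin_le_one _
  have h1 : ∀ n : ℤ, ∫ t, f t * ((Real.sin (n * t) : ℝ) : ℂ) ∂μ = 0 := by
    intro n
    obtain ⟨m, rfl | rfl⟩ := Int.eq_nat_or_neg n
    · simpa using h m
    · have := h m
      simp only [Int.cast_neg, Int.cast_natCast, neg_mul, Real.sin_neg, ofReal_neg, mul_neg,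
        integral_neg, neg_eq_zero]
      exact this
  have h2 := cos_unique (fun t => f t * (Real.sin t : ℝ)) (by simpa using hb 1) fun n => by
    have : ∀ t, f t * ((Real.sin t : ℝ) : ℂ) * ((Real.cos (n * t) : ℝ) : ℂ)
        = (1/2 : ℂ) * (f t * ((Real.sin ((((n : ℤ) + 1 : ℤ) : ℝ) * t) : ℝ) : ℂ)
          - f t * ((Real.sin ((((n : ℤ) - 1 : ℤ) : ℝ) * t) : ℝ) : ℂ)) := by
      intro t
      have e1 : (((n : ℤ) + 1 : ℤ) : ℝ) * t = n * t + t := by push_cast; ring
      have e2 : (((n : ℤ) - 1 : ℤ) : ℝ) * t = n * t - t := by push_cast; ring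
      rw [e1, e2, Real.sin_add, Real.sin_sub]
      push_cast; ring
    simp_rw [this]
    rw [integral_const_mul, integral_sub (hb _) (hb _), h1, h1]; simp
  filter_upwards [h2, ae_restrict_mem measurableSet_Ioo] with t ht ht'
  have : Real.sin t ≠ 0 := (Real.sin_pos_of_pos_of_lt_pi ht'.1 ht'.2).ne'
  simp only [Pi.zero_apply, mul_eq_zero, ofReal_eq_zero, this, or_false] at ht
  exact ht

end Pool.Agent.P.MP_f617a8_an
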