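import Pool.Agent.P.MP_f617a8_an.Main

/-! Beta integrals: the eigenvalue of the adjoint on `exp (i ξ log tan (t/2))` is explicit. -/

open MeasureTheory Complex Set Filter Topology
open scoped Real ENNReal

namespace Pool.Agent.P.MP_f617a8_an

theorem half_pos {t : ℝ} (ht : t ∈ Ioo 0 π) : 0 < Real.sin (t / 2) ∧ 0 < Real.cos (t / 2) :=
  ⟨Real.sin_pos_of_pos_of_lt_pi (by linarith [ht.1]) (by linarith [ht.2, Real.pi_pos]),
    Real.cos_pos_of_mem_Ioo ⟨by linarith [ht.1, Real.pi_pos], by linarith [ht.2]⟩⟩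

theorem sq_cpow {r : ℝ} (hr : 0 < r) (w : ℂ) :
    ((r ^ 2 : ℝ) : ℂ) ^ w = exp (2 * (Real.log r : ℝ) * w) := by
  have h : ((r ^ 2 : ℝ) : ℂ) ≠ 0 := by exact_mod_cast (pow_pos hr 2).ne'
  rw [cpow_def_of_ne_zero h, ← ofReal_log (pow_pos hr 2).le, Real.log_pow]
  push_cast; ring_nf

theorem image_sin_sq : (fun t : ℝ => Real.sin (t / 2) ^ 2) '' Ioo 0 π = Ioo 0 1 := by
  ext x
  constructor
  · rintro ⟨t, ht, rfl⟩
    obtain ⟨h1, h2⟩ := half_pos ht
    refine ⟨pow_pos h1 2, ?_⟩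
    have := Real.sin_sq_add_cos_sq (t / 2)
    have := pow_pos h2 2
    simp only; linarith
  · intro hx
    have h0 : 0 < √x := Real.sqrt_pos.2 hx.1
    have h1 : √x < 1 := by rw [Real.sqrt_lt' one_pos]; simpa using hx.2
    refine ⟨2 * Real.arcsin √x, ⟨?_, ?_⟩, ?_⟩
    · have := Real.arcsin_pos.2 h0; linarith
    · have := Real.arcsin_lt_pi_div_two.2 h1; linarith
    · simp only
      rw [mul_div_cancel_left₀ _ two_ne_zero, Real.sin_arcsin (by linarith) h1.le,
        Real.sq_sqrt hx.1.le]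

theorem injOn_sin_sq : InjOn (fun t : ℝ => Real.sin (t / 2) ^ 2) (Ioo 0 π) := by
  intro a ha b hb hab
  have h1 := (half_pos ha).1
  have h2 := (half_pos hb).1
  have h3 : Real.sin (a / 2) = Real.sin (b / 2) := by
    simp only at hab
    exact (pow_left_inj₀ h1.le h2.le two_ne_zero).1 hab
  have := Real.injOn_sin (x₁ := a / 2) (x₂ := b / 2)
    ⟨by linarith [ha.1, Real.pi_pos], by linarith [ha.2]⟩
    ⟨by linarith [hb.1, Real.pi_pos], by linarith [hb.2]⟩ h3
  linarith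

theorem beta_sub (a b : ℂ) (ha : 0 < a.re) (hb : 0 < b.re) (G : ℝ → ℂ)
    (hG : ∀ t ∈ Ioo 0 π, G t = exp ((2 * a - 1) * (Real.log (Real.sin (t / 2)) : ℝ)
      + (2 * b - 1) * (Real.log (Real.cos (t / 2)) : ℝ))) :
    IntegrableOn G (Ioo 0 π) ∧ Gamma (a + b) * ∫ t in Ioo 0 π, G t = Gamma a * Gamma b := by
  have hd : ∀ t ∈ Ioo 0 π, HasDerivWithinAt (fun t : ℝ => Real.sin (t / 2) ^ 2)
      (Real.sin (t / 2) * Real.cos (t / 2)) (Ioo 0 π) t := by
    intro t _
    have h4 : HasDerivAt (fun x : ℝ => x / 2) (1 / 2) t := (hasDerivAt_id t).div_const 2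
    have := (h4.sin.fun_pow 2).hasDerivWithinAt (s := Ioo 0 π)
    refine this.congr_deriv ?_
    simp; ring
  set g : ℝ → ℂ := fun x => (x : ℂ) ^ (a - 1) * (1 - (x : ℂ)) ^ (b - 1) with hg
  have heq : EqOn (fun t => |Real.sin (t / 2) * Real.cos (t / 2)| • g (Real.sin (t / 2) ^ 2)) G
      (Ioo 0 π) := by
    intro t ht
    obtain ⟨h1, h2⟩ := half_pos ht
    have h3 : (1 : ℂ) - ((Real.sin (t / 2) ^ 2 : ℝ) : ℂ) = ((Real.cos (t / 2) ^ 2 : ℝ) : ℂ) := by
      rw [Real.cos_sq']; push_cast; ring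
    simp only [hg]
    rw [h3, sq_cpow h1, sq_cpow h2, hG t ht, abs_of_pos (mul_pos h1 h2), real_smul, ofReal_mul]
    conv_lhs => rw [← Real.exp_log h1, ← Real.exp_log h2]
    simp only [Real.log_exp, ofReal_exp, ← Complex.exp_add]
    congr 1; ring
  constructor
  · have h1 := betaIntegral_convergent ha hb
    rw [intervalIntegrable_iff_integrableOn_Ioo_of_le zero_le_one, ← image_sin_sq,
      integrableOn_image_iff_integrableOn_abs_deriv_smul measurableSet_Ioo hd injOn_sin_sq] at h1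
    exact h1.congr_fun heq measurableSet_Ioo
  · rw [Gamma_mul_Gamma_eq_betaIntegral ha hb, betaIntegral,
      intervalIntegral.integral_of_le zero_le_one, integral_Ioc_eq_integral_Ioo, ← image_sin_sq,
      integral_image_eq_integral_abs_deriv_smul measurableSet_Ioo hd injOn_sin_sq,
      setIntegral_congr_fun measurableSet_Ioo heq]

theorem uu_eq {t : ℝ} (ht : t ∈ Ioo 0 π) :
    uu t = Real.log (Real.sin (t / 2)) - Real.log (Real.cos (t / 2)) := by
  obtain ⟨h1, h2⟩ := half_pos ht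
  rw [uu, Real.tan_eq_sin_div_cos, Real.log_div h1.ne' h2.ne']

theorem exp_int (z : ℂ) (h1 : -1 < z.re) (h2 : z.re < 1) :
    IntegrableOn (fun t => exp (z * uu t)) (Ioo 0 π) ∧
      ∫ t in Ioo 0 π, exp (z * uu t) = π / cos (π * z / 2) := by
  have := beta_sub ((1 + z) / 2) (1 - (1 + z) / 2) (by simp; linarith) (by simp; linarith)
    (fun t => exp (z * uu t)) (fun t ht => by
      rw [uu_eq ht]; congr 1; push_cast; ring)
  refine ⟨this.1, ?_⟩
  have h3 := this.2
  rw [add_sub_cancel, Gamma_one, one_mul, Gamma_mul_Gamma_one_sub] at h3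
  rw [h3, ← Complex.sin_add_pi_div_two]
  congr 2; ring

theorem exp_sin_int (z : ℂ) (h1 : -1 < z.re) (h2 : z.re < 1) (h0 : z ≠ 0) :
    ∫ t in Ioo 0 π, exp (z * uu t) * (Real.sin t : ℝ) = π * z / sin (π * z / 2) := by
  have := beta_sub (z / 2 + 1) (1 - z / 2) (by simp; linarith) (by simp; linarith)
    (fun t => (1 / 2) * (exp (z * uu t) * (Real.sin t : ℝ))) (fun t ht => by
      obtain ⟨h1, h2⟩ := half_pos ht
      have h6 : Real.sin t = 2 * Real.sin (t / 2) * Real.cos (t / 2) := by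
        rw [← Real.sin_two_mul]; congr 1; ring
      rw [uu_eq ht, h6]
      conv_lhs => rw [← Real.exp_log h1, ← Real.exp_log h2]
      simp only [Real.log_exp, ofReal_exp, ofReal_mul, ofReal_ofNat]
      rw [show ∀ x y w : ℂ, 1 / 2 * (x * (2 * y * w)) = x * y * w from fun x y w => by ring]
      simp only [← Complex.exp_add]
      congr 1; push_cast; ring)
  have h3 := this.2
  have h4 : z / 2 + 1 + (1 - z / 2) = ((1 : ℕ) : ℂ) + 1 := by push_cast; ring
  rw [h4, Gamma_nat_eq_factorial, Gamma_add_one _ (by simpa using h0), mul_assoc,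
    Gamma_mul_Gamma_one_sub, integral_const_mul] at h3
  simp only [Nat.factorial_one, Nat.cast_one, one_mul] at h3
  rw [mul_div_assoc (π : ℂ) z 2]
  linear_combination (exp := 1) 2 * h3

theorem CC_zero (ξ : ℝ) : CC ξ 0 = (π / Real.cosh (π * ξ / 2) : ℝ) := by
  have := (exp_int (ξ * I) (by simp) (by simp)).2
  rw [show (π : ℂ) * (ξ * I) / 2 = ((π * ξ / 2 : ℝ) : ℂ) * I by push_cast; ring, cos_mul_I] at this
  unfold CC kk
  simp only [zero_mul, Real.cos_zero, ofReal_one, mul_one]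
  rw [ofReal_div, ofReal_cosh, ← this]
  refine integral_congr_ae (Eventually.of_forall fun t => ?_)
  simp only; congr 1; ring

theorem eig_eq (ξ : ℝ) : CC ξ 1 / SS ξ 1 = -I * (Real.tanh (π * ξ / 2) : ℝ) := by
  have h1 := CC_rec ξ 0
  have h2 : CC ξ (0 - 1) = CC ξ 1 := by unfold CC; simp
  rw [h2, zero_add] at h1
  simp only [ofReal_zero] at h1
  have h3 : CC ξ 1 = -(ξ * I) * CC ξ 0 := by linear_combination h1
  by_cases h0 : ξ = 0
  · rw [h3]; simp [h0]
  have h0' : (ξ : ℂ) ≠ 0 := by exact_mod_cast h0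
  have h4 := exp_sin_int (ξ * I) (by simp) (by simp) (by simp [h0])
  rw [show (π : ℂ) * (ξ * I) / 2 = ((π * ξ / 2 : ℝ) : ℂ) * I by push_cast; ring, sin_mul_I,
    ← ofReal_sinh] at h4
  have h5 : SS ξ 1 = π * (ξ * I) / ((Real.sinh (π * ξ / 2) : ℝ) * I) := by
    rw [← h4]
    unfold SS kk
    refine integral_congr_ae (Eventually.of_forall fun t => ?_)
    simp only [one_mul]; congr 2; ring
  have h6 : ((Real.sinh (π * ξ / 2) : ℝ) : ℂ) ≠ 0 := by
    have : π * ξ / 2 ≠ 0 := by have := Real.pi_pos; positivity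
    exact_mod_cast Real.sinh_ne_zero.2 this
  have h7 : ((Real.cosh (π * ξ / 2) : ℝ) : ℂ) ≠ 0 := by
    exact_mod_cast (Real.cosh_pos _).ne'
  have h8 : (π : ℂ) ≠ 0 := by exact_mod_cast Real.pi_pos.ne'
  rw [h3, h5, CC_zero, Real.tanh_eq_sinh_div_cosh, ofReal_div, ofReal_div]
  field_simp

theorem integrable_uu_pow (k : ℕ) :
    Integrable (fun t => |uu t| ^ k) (volume.restrict (Ioo 0 π)) := by
  refine ProbabilityTheory.integrable_pow_abs_of_mem_interior_integrableExpSet ?_ k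
  refine mem_interior.2 ⟨Ioo (-1) 1, fun a ha => ?_, isOpen_Ioo, by norm_num⟩
  have := (exp_int a (by simpa using ha.1) (by simpa using ha.2)).1.norm
  refine this.congr (Eventually.of_forall fun t => ?_)
  simp only
  rw [← ofReal_mul, norm_exp_ofReal]

end Pool.Agent.P.MP_f617a8_an
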