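import Pool.Agent.P.MP_f617a8_an.Wold1

/-! The iterates `P ^ n 1` are Meixner-Pollaczek polynomials in `log tan (t/2)`. -/

open MeasureTheory Complex Set Filter Topology
open scoped Real ENNReal InnerProductSpace

namespace Pool.Agent.P.MP_f617a8_an

theorem integrable_one_add (k : ℕ) :
    Integrable (fun t => (1 + |uu t|) ^ k) (volume.restrict (Ioo 0 π)) := by
  simp_rw [add_comm (1 : ℝ), add_pow, one_pow, mul_one]
  exact integrable_finsetSum _ fun i _ => (integrable_uu_pow i).mul_const _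

theorem integrable_of_le (g : ℝ → ℝ) (hg : Measurable g) (k : ℕ)
    (hb : ∀ t, |g t| ≤ (1 + |uu t|) ^ k) (ξ : ℝ) :
    Integrable (fun t => (g t : ℂ) * kk ξ t) (volume.restrict (Ioo 0 π)) := by
  refine (integrable_one_add k).mono' ?_ (Eventually.of_forall fun t => ?_)
  · exact ((measurable_ofReal.comp hg).mul (measurable_kk ξ)).aestronglyMeasurable
  · rw [norm_mul, norm_kk, mul_one, norm_real]; exact hb t

theorem le_succ (g : ℝ → ℝ) (k : ℕ) (hb : ∀ t, |g t| ≤ (1 + |uu t|) ^ k) (t : ℝ) :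
    |uu t * g t| ≤ (1 + |uu t|) ^ (k + 1) := by
  rw [abs_mul, pow_succ']
  exact mul_le_mul (by linarith) (hb t) (abs_nonneg _) (by positivity)

theorem hasDerivAt_int (g : ℝ → ℝ) (hg : Measurable g) (k : ℕ)
    (hb : ∀ t, |g t| ≤ (1 + |uu t|) ^ k) (ξ : ℝ) :
    HasDerivAt (fun ξ : ℝ => ∫ t in Ioo 0 π, (g t : ℂ) * kk ξ t)
      (I * ∫ t in Ioo 0 π, ((uu t * g t : ℝ) : ℂ) * kk ξ t) ξ := by
  rw [← integral_const_mul]
  refine (hasDerivAt_integral_of_dominated_loc_of_deriv_le (s := univ)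
    (F := fun ξ t => (g t : ℂ) * kk ξ t)
    (F' := fun ξ t => I * (((uu t * g t : ℝ) : ℂ) * kk ξ t))
    (bound := fun t => (1 + |uu t|) ^ (k + 1)) univ_mem
    (Eventually.of_forall fun x => (integrable_of_le g hg k hb x).1) (integrable_of_le g hg k hb ξ)
    ((integrable_of_le _ (measurable_uu.mul hg) (k + 1) (le_succ g k hb) ξ).const_mul I).1
    (Eventually.of_forall fun t x _ => ?_) (integrable_one_add _)
    (Eventually.of_forall fun t x _ => ?_)).2
  · rw [norm_mul, norm_mul, norm_kk, norm_I, mul_one, one_mul, norm_real]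
    exact le_succ g k hb t
  · unfold kk
    have h1 : HasDerivAt (fun x : ℝ => (x : ℂ)) 1 x := (hasDerivAt_id x).ofReal_comp
    refine ((((h1.mul_const (uu t : ℂ)).mul_const I).cexp).const_mul (g t : ℂ)).congr_deriv ?_
    push_cast; ring

/-- The transform of the `n`-th iterate. -/
noncomputable def HH (n : ℕ) (ξ : ℝ) : ℂ :=
  (-I) ^ n * ((π * (Real.sinh (π * ξ / 2) ^ n / Real.cosh (π * ξ / 2) ^ (n + 1)) : ℝ) : ℂ)

theorem hasDerivAt_HH (n : ℕ) (ξ : ℝ) : ∃ D : ℂ, HasDerivAt (HH n) D ξ ∧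
    2 * I / π * D = (n + 1) * HH (n + 1) ξ + n * HH (n - 1) ξ := by
  have h1 : HasDerivAt (fun x : ℝ => π * x / 2) (π / 2) ξ := by
    simpa using ((hasDerivAt_id ξ).const_mul π).div_const 2
  have hc : Real.cosh (π * ξ / 2) ≠ 0 := (Real.cosh_pos _).ne'
  have h2 := ((((h1.sinh.fun_pow n).fun_div (h1.cosh.fun_pow (n + 1))
    (pow_ne_zero _ hc)).const_mul π).ofReal_comp).const_mul ((-I) ^ n)
  refine ⟨_, h2, ?_⟩
  unfold HH
  generalize Real.cosh (π * ξ / 2) = C at hc ⊢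
  generalize Real.sinh (π * ξ / 2) = S
  have hc' : (C : ℂ) ≠ 0 := by exact_mod_cast hc
  have h8 : (π : ℂ) ≠ 0 := by exact_mod_cast Real.pi_pos.ne'
  cases n with
  | zero =>
    simp only [Nat.cast_zero, zero_mul, add_zero, pow_zero, zero_add, pow_one, one_mul]
    push_cast
    field_simp
    ring
  | succ n =>
    simp only [Nat.add_sub_cancel]
    push_cast
    field_simp
    linear_combination
      (-(((n : ℂ) + 1) * (-I) ^ n * (S : ℂ) ^ n * (C : ℂ) ^ (n * 3) * C ^ 7)) * I_mul_I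

section poly

variable (p : ℕ → ℝ → ℝ) (h0 : ∀ x, p 0 x = 1) (h1 : ∀ x, p 1 x = 2 * x)
  (h2 : ∀ (n : ℕ) x, p (n + 2) x = (2 * x * p (n + 1) x - (n + 1) * p n x) / (n + 2))
include h0 h1 h2

theorem p_cont (n : ℕ) : Continuous (p n) := by
  induction n using Nat.twoStepInduction with
  | zero => rw [funext h0]; fun_prop
  | one => rw [funext h1]; fun_prop
  | more n a b => rw [funext (h2 n)]; fun_prop

theorem p_bound (n : ℕ) (x : ℝ) : |p n x| ≤ (1 + |2 * x|) ^ n := by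
  induction n using Nat.twoStepInduction with
  | zero => simp [h0]
  | one => rw [h1]; simp
  | more n a b =>
    have hn : (0 : ℝ) ≤ n := n.cast_nonneg
    have hA : 1 ≤ 1 + |2 * x| := by simp
    have h3 : (1 + |2 * x|) ^ n ≤ (1 + |2 * x|) ^ (n + 1) := pow_le_pow_right₀ hA n.le_succ
    have h4 : 0 ≤ (1 + |2 * x|) ^ (n + 1) := by positivity
    rw [h2, abs_div, abs_of_pos (by positivity : (0 : ℝ) < n + 2), div_le_iff₀ (by positivity)]
    have h5 : |2 * x * p (n + 1) x| ≤ |2 * x| * (1 + |2 * x|) ^ (n + 1) := by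
      rw [abs_mul]; exact mul_le_mul_of_nonneg_left b (abs_nonneg _)
    have h6 : |(n + 1 : ℝ) * p n x| ≤ (n + 1) * (1 + |2 * x|) ^ (n + 1) := by
      rw [abs_mul, abs_of_pos (by positivity : (0 : ℝ) < n + 1)]
      exact mul_le_mul_of_nonneg_left (a.trans h3) (by positivity)
    have h7 := abs_sub (2 * x * p (n + 1) x) ((n + 1 : ℝ) * p n x)
    have h8 : 0 ≤ |2 * x| * (1 + |2 * x|) ^ (n + 1) := by positivity
    rw [pow_succ _ (n + 1)]
    nlinarith [mul_nonneg hn h8]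

theorem q_meas (n : ℕ) : Measurable fun t => p n (-uu t / π) :=
  (p_cont p h0 h1 h2 n).measurable.comp (measurable_uu.neg.div_const π)

theorem q_bound (n : ℕ) (t : ℝ) : |p n (-uu t / π)| ≤ (1 + |uu t|) ^ n := by
  refine (p_bound p h0 h1 h2 n _).trans (pow_le_pow_left₀ (by positivity) ?_ n)
  rw [abs_mul, abs_div, abs_neg, abs_two, abs_of_pos Real.pi_pos]
  have : 2 * (|uu t| / π) ≤ |uu t| := by
    rw [← mul_div_assoc, div_le_iff₀ Real.pi_pos]
    nlinarith [Real.pi_gt_three, abs_nonneg (uu t)]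
  linarith

theorem q_memLp (n : ℕ) :
    MemLp (fun t => ((p n (-uu t / π) : ℝ) : ℂ)) 2 (volume.restrict (Ioo 0 π)) := by
  have hm := (measurable_ofReal.comp (q_meas p h0 h1 h2 n)).aestronglyMeasurable
    (μ := volume.restrict (Ioo 0 π))
  refine (memLp_two_iff_integrable_sq_norm hm).2 ?_
  refine (integrable_one_add (n * 2)).mono' (hm.norm.pow 2) (Eventually.of_forall fun t => ?_)
  rw [norm_pow, norm_norm, pow_mul]
  refine pow_le_pow_left₀ (norm_nonneg _) ?_ 2
  simpa using q_bound p h0 h1 h2 n t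

theorem q_transform (n : ℕ) :
    ∀ ξ : ℝ, ∫ t in Ioo 0 π, ((p n (-uu t / π) : ℝ) : ℂ) * kk ξ t = HH n ξ := by
  have h8 : (π : ℂ) ≠ 0 := by exact_mod_cast Real.pi_pos.ne'
  have step : ∀ n : ℕ, (∀ ξ : ℝ, ∫ t in Ioo 0 π, ((p n (-uu t / π) : ℝ) : ℂ) * kk ξ t = HH n ξ) →
      ∀ ξ : ℝ, -2 / π * ∫ t in Ioo 0 π, ((uu t * p n (-uu t / π) : ℝ) : ℂ) * kk ξ t
        = (n + 1) * HH (n + 1) ξ + n * HH (n - 1) ξ := by
    intro n hn ξ
    obtain ⟨D, hD1, hD2⟩ := hasDerivAt_HH n ξ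
    have h3 := hasDerivAt_int _ (q_meas p h0 h1 h2 n) n (q_bound p h0 h1 h2 n) ξ
    rw [funext hn] at h3
    rw [← hD2, hD1.unique h3]
    linear_combination (-2 / π * ∫ t in Ioo 0 π, ((uu t * p n (-uu t / π) : ℝ) : ℂ) * kk ξ t)
      * I_mul_I
  have z0 : ∀ ξ : ℝ, ∫ t in Ioo 0 π, ((p 0 (-uu t / π) : ℝ) : ℂ) * kk ξ t = HH 0 ξ := by
    intro ξ
    have := CC_zero ξ
    unfold CC at this
    simpa [h0, HH, div_eq_mul_inv] using this
  induction n using Nat.twoStepInduction with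
  | zero => exact z0
  | one =>
    intro ξ
    have h3 := step 0 z0 ξ
    simp only [Nat.cast_zero, zero_add, one_mul, zero_mul, add_zero] at h3
    rw [← h3, ← integral_const_mul]
    refine integral_congr_ae (Eventually.of_forall fun t => ?_)
    simp only [h0, h1]; push_cast; ring
  | more n a b =>
    intro ξ
    have h3 := step (n + 1) b ξ
    have hn : (n : ℂ) + 2 ≠ 0 := by exact_mod_cast (by omega : n + 2 ≠ 0)
    have h4 : ∀ t, ((p (n + 2) (-uu t / π) : ℝ) : ℂ) * kk ξ t = ((n : ℂ) + 2)⁻¹ *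
        (-2 / π * (((uu t * p (n + 1) (-uu t / π) : ℝ) : ℂ) * kk ξ t)
          - (n + 1) * (((p n (-uu t / π) : ℝ) : ℂ) * kk ξ t)) := by
      intro t; rw [h2]; push_cast; ring
    simp_rw [h4]
    rw [integral_const_mul, integral_sub
      ((integrable_of_le (fun t => uu t * p (n + 1) (-uu t / π))
        (measurable_uu.mul (q_meas p h0 h1 h2 (n + 1))) _
        (le_succ _ _ (q_bound p h0 h1 h2 (n + 1))) ξ).const_mul _)
      ((integrable_of_le _ (q_meas p h0 h1 h2 n) _ (q_bound p h0 h1 h2 n) ξ).const_mul _),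
      integral_const_mul, integral_const_mul, h3, a, Nat.add_sub_cancel]
    push_cast
    field_simp
    ring

end poly

end Pool.Agent.P.MP_f617a8_an
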