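import Pool.Agent.P.MP_f617a8_an.Wold2

/-! The closed form of `P ^ n 1`. -/

open MeasureTheory Complex Set Filter Topology
open scoped Real ENNReal InnerProductSpace

namespace Pool.Agent.P.MP_f617a8_an

theorem wold (s c : ℕ+ → Lp ℂ 2 (volume.restrict (Ioo (0 : ℝ) π)))
    (e : Lp ℂ 2 (volume.restrict (Ioo (0 : ℝ) π)))
    (hs : ∀ n : ℕ+, s n =ᵐ[volume.restrict (Ioo 0 π)]
      fun t => ((√(2 / π) * Real.sin (n * t) : ℝ) : ℂ))
    (hc : ∀ n : ℕ+, c n =ᵐ[volume.restrict (Ioo 0 π)]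
      fun t => ((√(2 / π) * Real.cos (n * t) : ℝ) : ℂ))
    (he : e =ᵐ[volume.restrict (Ioo 0 π)] fun _ => (1 : ℂ))
    (p : ℕ → ℝ → ℝ) (h0 : ∀ x, p 0 x = 1) (h1 : ∀ x, p 1 x = 2 * x)
    (h2 : ∀ (n : ℕ) x, p (n + 2) x = (2 * x * p (n + 1) x - (n + 1) * p n x) / (n + 2))
    (P : Lp ℂ 2 (volume.restrict (Ioo (0 : ℝ) π)) →L[ℂ] Lp ℂ 2 (volume.restrict (Ioo (0 : ℝ) π)))
    (hP : ∀ f, HasSum (fun n => ⟪s n, f⟫_ℂ • c n) (P f)) (n : ℕ) :
    (P ^ n) e =ᵐ[volume.restrict (Ioo 0 π)]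
      fun t => ((p n (Real.log (Real.cot (t / 2)) / π) : ℝ) : ℂ) := by
  let μ : Measure ℝ := volume.restrict (Ioo (0 : ℝ) π)
  have hsq : ((√(2 / π) : ℝ) : ℂ) ≠ 0 := by
    have : 0 < √(2 / π) := Real.sqrt_pos.2 (by positivity)
    exact_mod_cast this.ne'
  have hint : ∀ f : Lp ℂ 2 μ, Integrable f μ := fun f => (Lp.memLp f).integrable (by norm_num)
  let k : ℝ → Lp ℂ 2 μ := fun ξ => (memLp_of_bound (fun t => (starRingEnd ℂ) (kk ξ t))
    (continuous_conj.measurable.comp (measurable_kk ξ)) 1 (fun t => by simp [norm_kk])).toLp _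
  have hk : ∀ ξ, k ξ =ᵐ[μ] fun t => (starRingEnd ℂ) (kk ξ t) := fun ξ => MemLp.coeFn_toLp _
  have hso : Orthonormal ℂ s := by
    classical
    rw [orthonormal_iff_ite]
    intro n m
    rw [inner_eq _ _ _ _ (hs n) (hs m)]
    simp only [conj_ofReal, ← ofReal_mul]
    rw [integral_complex_ofReal, int_sin_sin]
    split_ifs <;> simp
  have hsp : (Submodule.span ℂ (Set.range s))ᗮ = ⊥ := by
    rw [Submodule.eq_bot_iff]
    intro f hf
    rw [Lp.eq_zero_iff_ae_eq_zero]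
    refine sin_unique f (hint f) fun n => ?_
    rcases Nat.eq_zero_or_pos n with rfl | hn
    · simp
    · obtain ⟨j, rfl⟩ : ∃ j : ℕ+, (j : ℕ) = n := ⟨⟨n, hn⟩, rfl⟩
      have := (Submodule.mem_orthogonal _ _).1 hf _ (Submodule.subset_span ⟨j, rfl⟩)
      rw [inner_eq _ _ _ _ (hs j) (EventuallyEq.refl _ _)] at this
      simp only [conj_ofReal, ofReal_mul, map_mul, mul_assoc] at this
      rw [integral_const_mul, mul_eq_zero] at this
      simpa only [mul_comm] using this.resolve_left hsq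
  set b : HilbertBasis ℕ+ ℂ (Lp ℂ 2 μ) := HilbertBasis.mkOfOrthogonalEqBot hso hsp with hb
  have hbs : ∀ n, b n = s n := fun n => by rw [hb, HilbertBasis.coe_mkOfOrthogonalEqBot]
  have hkc : ∀ ξ n, ⟪k ξ, c n⟫_ℂ = CC ξ 1 / SS ξ 1 * ⟪k ξ, s n⟫_ℂ := by
    intro ξ n
    rw [inner_eq _ _ _ _ (hk ξ) (hc n), inner_eq _ _ _ _ (hk ξ) (hs n)]
    have h1 := CC_eq ξ n.natPred
    have h2 : ((n.natPred : ℕ) : ℝ) + 1 = ((n : ℕ) : ℝ) := by
      exact_mod_cast n.natPred_add_one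
    rw [h2] at h1
    have h3 : ∫ t, (starRingEnd ℂ) ((starRingEnd ℂ) (kk ξ t)) *
        ((√(2 / π) * Real.cos (n * t) : ℝ) : ℂ) ∂μ = (√(2 / π) : ℝ) * CC ξ n := by
      unfold CC
      rw [← integral_const_mul]
      refine integral_congr_ae (Eventually.of_forall fun t => ?_)
      simp only [conj_conj, ofReal_mul]; ring
    have h4 : ∫ t, (starRingEnd ℂ) ((starRingEnd ℂ) (kk ξ t)) *
        ((√(2 / π) * Real.sin (n * t) : ℝ) : ℂ) ∂μ = (√(2 / π) : ℝ) * SS ξ n := by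
      unfold SS
      rw [← integral_const_mul]
      refine integral_congr_ae (Eventually.of_forall fun t => ?_)
      simp only [conj_conj, ofReal_mul]; ring
    rw [h3, h4, h1]; ring
  have hkP : ∀ ξ f, ⟪k ξ, P f⟫_ℂ = CC ξ 1 / SS ξ 1 * ⟪k ξ, f⟫_ℂ := by
    intro ξ f
    have h1 : HasSum (fun n => ⟪s n, f⟫_ℂ * ⟪k ξ, c n⟫_ℂ) ⟪k ξ, P f⟫_ℂ := by
      have := (hP f).mapL (innerSL ℂ (k ξ))
      simpa only [innerSL_apply_apply, inner_smul_right] using this
    have h2 := (b.hasSum_inner_mul_inner (k ξ) f).mul_left (CC ξ 1 / SS ξ 1)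
    refine h1.unique (h2.congr_fun fun n => ?_)
    rw [hkc, hbs]; ring
  have hkn : ∀ ξ (n : ℕ), ⟪k ξ, (P ^ n) e⟫_ℂ = HH n ξ := by
    intro ξ n
    have hc' : ((Real.cosh (π * ξ / 2) : ℝ) : ℂ) ≠ 0 := by exact_mod_cast (Real.cosh_pos _).ne'
    induction n with
    | zero =>
      rw [pow_zero, one_apply_eq_self, inner_eq _ _ _ _ (hk ξ) he]
      have := CC_zero ξ
      unfold CC at this
      simpa [HH, div_eq_mul_inv] using this
    | succ n ih =>
      rw [pow_succ', mul_apply_eq_comp, hkP, ih, eig_eq, Real.tanh_eq_sinh_div_cosh]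
      unfold HH
      simp only [ofReal_mul, ofReal_div, ofReal_pow]
      field_simp
      ring
  have hq := q_memLp p h0 h1 h2 n
  have h5 := kk_unique (fun t => ((P ^ n) e) t - ((p n (-uu t / π) : ℝ) : ℂ))
    ((hint _).sub (hq.integrable (by norm_num))) fun ξ => by
      have h6 := hkn ξ n
      rw [inner_eq _ _ _ _ (hk ξ) (EventuallyEq.refl _ _)] at h6
      simp only [conj_conj] at h6
      simp_rw [sub_mul]
      rw [integral_sub ((hint _).mul_bdd (c := 1) (measurable_kk ξ).aestronglyMeasurable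
        (Eventually.of_forall fun t => (norm_kk ξ t).le))
        (integrable_of_le _ (q_meas p h0 h1 h2 n) _ (q_bound p h0 h1 h2 n) ξ),
        q_transform p h0 h1 h2, ← h6, sub_eq_zero]
      simp only [mul_comm]
  filter_upwards [h5] with t ht
  rw [← Real.tan_inv_eq_cot, Real.log_inv]
  exact sub_eq_zero.1 ht

theorem wold_basis (s c : ℕ+ → Lp ℂ 2 (volume.restrict (Ioo (0 : ℝ) π)))
    (hs : ∀ n : ℕ+, s n =ᵐ[volume.restrict (Ioo 0 π)]
      fun t => ((√(2 / π) * Real.sin (n * t) : ℝ) : ℂ))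
    (hc : ∀ n : ℕ+, c n =ᵐ[volume.restrict (Ioo 0 π)]
      fun t => ((√(2 / π) * Real.cos (n * t) : ℝ) : ℂ))
    (p : ℕ → ℝ → ℝ) (h0 : ∀ x, p 0 x = 1) (h1 : ∀ x, p 1 x = 2 * x)
    (h2 : ∀ (n : ℕ) x, p (n + 2) x = (2 * x * p (n + 1) x - (n + 1) * p n x) / (n + 2)) :
    ∃ P : Lp ℂ 2 (volume.restrict (Ioo (0 : ℝ) π)) →L[ℂ] Lp ℂ 2 (volume.restrict (Ioo (0 : ℝ) π)),
      (∀ f, HasSum (fun n => ⟪s n, f⟫_ℂ • c n) (P f)) ∧
      ∃ b : HilbertBasis ℕ ℂ (Lp ℂ 2 (volume.restrict (Ioo (0 : ℝ) π))), ∀ n : ℕ,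
        (b n =ᵐ[volume.restrict (Ioo 0 π)]
          fun t => ((p n (Real.log (Real.cot (t / 2)) / π) / √π : ℝ) : ℂ)) ∧
        P (b n) = b (n + 1) := by
  let μ : Measure ℝ := volume.restrict (Ioo (0 : ℝ) π)
  let e : Lp ℂ 2 μ := (memLp_of_bound (fun _ => (1 : ℂ)) measurable_const 1 (by simp)).toLp _
  have he : e =ᵐ[μ] fun _ => (1 : ℂ) := MemLp.coeFn_toLp _
  obtain ⟨P, hP, hN, -, hcl⟩ := main s c e hs hc he
  have hinner : ∀ f g, ⟪P f, P g⟫_ℂ = ⟪f, g⟫_ℂ := fun f g =>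
    (LinearIsometry.mk P.toLinearMap hN).inner_map_map f g
  have heP : ∀ f, ⟪e, P f⟫_ℂ = 0 := by
    intro f
    have h3 := (hP f).mapL (innerSL ℂ e)
    have h4 : ∀ n, ⟪e, c n⟫_ℂ = 0 := by
      intro n
      rw [inner_eq _ _ _ _ he (hc n)]
      simp only [map_one, one_mul]
      rw [integral_complex_ofReal, integral_const_mul]
      have := int_cos ((n : ℕ) : ℤ)
      rw [if_neg (by have := n.pos; omega)] at this
      push_cast at this
      rw [this]; simp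
    simp only [innerSL_apply_apply, inner_smul_right, h4, mul_zero] at h3
    exact h3.unique hasSum_zero
  have hee : ⟪e, e⟫_ℂ = π := by
    rw [inner_eq _ _ _ _ he he]
    simp [μ, Real.pi_pos.le]
  have horth : ∀ i j : ℕ, ⟪(P ^ i) e, (P ^ j) e⟫_ℂ = if i = j then (π : ℂ) else 0 := by
    intro i
    induction i with
    | zero =>
      intro j
      cases j with
      | zero => simpa using hee
      | succ j => rw [pow_succ', mul_apply_eq_comp, pow_zero, one_apply_eq_self, heP]; simp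
    | succ i ih =>
      intro j
      cases j with
      | zero =>
        rw [← inner_conj_symm, pow_succ', mul_apply_eq_comp, pow_zero, one_apply_eq_self, heP]
        simp
      | succ j =>
        rw [pow_succ', pow_succ', mul_apply_eq_comp, mul_apply_eq_comp, hinner, ih]; simp
  have hsq : 0 < √π := Real.sqrt_pos.2 Real.pi_pos
  have hsq' : ((√π : ℝ) : ℂ) ≠ 0 := by exact_mod_cast hsq.ne'
  have hsq2 : ((√π : ℝ) : ℂ) * (√π : ℝ) = π := by
    exact_mod_cast Real.mul_self_sqrt Real.pi_pos.le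
  let v : ℕ → Lp ℂ 2 μ := fun n => ((√π : ℝ) : ℂ)⁻¹ • (P ^ n) e
  have hv : Orthonormal ℂ v := by
    rw [orthonormal_iff_ite]
    intro i j
    simp only [v, inner_smul_left, inner_smul_right, horth, map_inv₀, conj_ofReal]
    split_ifs
    · rw [← hsq2]; field_simp
    · simp
  have hsp : ⊤ ≤ (Submodule.span ℂ (Set.range v)).topologicalClosure := by
    rw [← hcl]
    refine Submodule.topologicalClosure_mono (Submodule.span_le.2 ?_)
    rintro _ ⟨n, rfl⟩
    have : (P ^ n) e = ((√π : ℝ) : ℂ) • v n := by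
      simp only [v, smul_smul, mul_inv_cancel₀ hsq', one_smul]
    simp only [this]
    exact Submodule.smul_mem _ _ (Submodule.subset_span ⟨n, rfl⟩)
  refine ⟨P, hP, HilbertBasis.mk hv hsp, fun n => ?_⟩
  rw [HilbertBasis.coe_mk]
  constructor
  · filter_upwards [wold s c e hs hc he p h0 h1 h2 P hP n,
      Lp.coeFn_smul ((√π : ℝ) : ℂ)⁻¹ ((P ^ n) e)] with t ht1 ht2
    simp only [v]
    rw [ht2, Pi.smul_apply, ht1, smul_eq_mul, ofReal_div, inv_mul_eq_div]
  · simp only [v, map_smul, pow_succ', mul_apply_eq_comp]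

end Pool.Agent.P.MP_f617a8_an
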